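import Pool.Agent.E8helper61.SI.Stm

set_option autoImplicit false

namespace Pool.Agent.E8helper27.SI

open Pool.Agent.E8helper61.SI

theorem big (r : ℕ) (h4 : 4 ≤ r) (h : r ^ 8 ≤ 2 ^ r) : 44 ≤ r := by
  by_contra hlt
  have hlt : r < 44 := by omega
  interval_cases r <;> norm_num at h

theorem fact_ge (r : ℕ) (h : 20 ≤ r) : 8 ^ r ≤ r.factorial := by
  induction r, h using Nat.le_induction with
  | base => decide +kernel
  | succ r hr ih =>
    rw [pow_succ, Nat.factorial_succ]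
    calc 8 ^ r * 8 ≤ r.factorial * (r + 1) := Nat.mul_le_mul ih (by omega)
      _ = (r + 1) * r.factorial := by ring

theorem exps (r j : ℕ) (h1 : r < 6 * j) (h2 : j ≤ r) :
    16 * r + r * r + r * j ≤ 24 * r + 8 * (j * (r - j) + j.choose 2) := by
  obtain ⟨d, rfl⟩ := Nat.exists_eq_add_of_le h2
  have hc : 2 * j.choose 2 = j * (j - 1) := by
    have := Nat.choose_two_right j
    have h3 := Nat.div_mul_cancel (Nat.even_mul_pred_self j).two_dvd
    omega
  have hj : 1 ≤ j := by omega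
  obtain ⟨i, rfl⟩ := Nat.exists_eq_add_of_le hj
  have e1 : 1 + i + d - (1 + i) = d := by omega
  have e2 : 1 + i - 1 = i := by omega
  rw [e1]
  rw [e2] at hc
  have h3 : 8 * ((1 + i) * d + (1 + i).choose 2) = 8 * ((1 + i) * d) + 4 * ((1 + i) * i) := by
    rw [← hc]; ring
  rw [h3]
  -- d < 5 j
  have h5 : d ≤ 5 * i + 4 := by omega
  have h6 : d * d ≤ (5 * i + 4) * d := Nat.mul_le_mul_right d h5
  nlinarith [h6]

theorem numB : NumBStatement := by
  intro r n j h4 hrn hn hj1 hj2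
  have hr : 44 ≤ r := big r h4 ((Nat.pow_le_pow_left hrn 8).trans hn)
  have h1 : n.choose r * r.factorial ≤ n ^ r := by
    have := Nat.descFactorial_le_pow n r
    rw [Nat.descFactorial_eq_factorial_mul_choose] at this
    linarith [mul_comm (n.choose r) r.factorial]
  have h2 : r.choose j ≤ 2 ^ r := Nat.choose_le_two_pow r j
  have h3 : (n - r).choose j ≤ n ^ j := by
    have e1 : (n - r).choose j ≤ (n - r).descFactorial j := by
      rw [Nat.descFactorial_eq_factorial_mul_choose]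
      exact Nat.le_mul_of_pos_left _ (Nat.factorial_pos j)
    exact e1.trans ((Nat.descFactorial_le_pow _ _).trans (Nat.pow_le_pow_left (Nat.sub_le _ _) _))
  have hf : (2 : ℕ) ^ (24 * r) ≤ r.factorial ^ 8 := by
    calc (2 : ℕ) ^ (24 * r) = (8 ^ r) ^ 8 := by
          rw [show (8 : ℕ) = 2 ^ 3 by norm_num, ← pow_mul, ← pow_mul]
          congr 1
          ring
      _ ≤ r.factorial ^ 8 := Nat.pow_le_pow_left (fact_ge r (by omega)) 8
  set L := 2 ^ r * (n.choose r * (r.choose j * (n - r).choose j)) with hL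
  set M := j * (r - j) + j.choose 2 with hM
  have key : L * r.factorial ≤ 2 ^ r * (n ^ r * (2 ^ r * n ^ j)) := by
    calc L * r.factorial = 2 ^ r * ((n.choose r * r.factorial) * (r.choose j * (n - r).choose j)) := by
          rw [hL]; ring
      _ ≤ 2 ^ r * (n ^ r * (2 ^ r * n ^ j)) :=
          Nat.mul_le_mul_left _ (Nat.mul_le_mul h1 (Nat.mul_le_mul h2 h3))
  have key8 : L ^ 8 * 2 ^ (24 * r) ≤ 2 ^ (16 * r + r * r + r * j) := by
    calc L ^ 8 * 2 ^ (24 * r) ≤ L ^ 8 * r.factorial ^ 8 := Nat.mul_le_mul_left _ hf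
      _ = (L * r.factorial) ^ 8 := (mul_pow _ _ _).symm
      _ ≤ (2 ^ r * (n ^ r * (2 ^ r * n ^ j))) ^ 8 := Nat.pow_le_pow_left key 8
      _ = 2 ^ (16 * r) * ((n ^ 8) ^ r * (n ^ 8) ^ j) := by ring
      _ ≤ 2 ^ (16 * r) * ((2 ^ r) ^ r * (2 ^ r) ^ j) :=
          Nat.mul_le_mul_left _ (Nat.mul_le_mul (Nat.pow_le_pow_left hn _) (Nat.pow_le_pow_left hn _))
      _ = 2 ^ (16 * r + r * r + r * j) := by
          rw [← pow_mul, ← pow_mul, ← pow_add, ← pow_add]
          congr 1
          ring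
  have fin8 : L ^ 8 ≤ (2 ^ M) ^ 8 := by
    have h7 : L ^ 8 * 2 ^ (24 * r) ≤ (2 ^ M) ^ 8 * 2 ^ (24 * r) := by
      refine key8.trans ?_
      rw [← pow_mul, ← pow_add]
      apply Nat.pow_le_pow_right (by norm_num)
      have := exps r j hj1 hj2
      rw [← hM] at this
      omega
    exact Nat.le_of_mul_le_mul_right h7 (by positivity)
  exact (Nat.pow_le_pow_iff_left (by norm_num)).1 fin8

end Pool.Agent.E8helper27.SI
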